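import Pool.Agent.MP_abb977_al.H94.Vis

/-! A cyclic unfused group of regular elements centralising a Sylow subgroup is visible. -/

namespace Pool.Agent.MP_abb977_al.CQ

open Pool.Agent.MP_abb977_al.H94 Subgroup

variable {G H : Type} [Group G] [Group H] {F : G ≃ H} {p : ℕ}

theorem exists_t (N a : ℕ) (hN : N ≠ 0) :
    ∃ t : ℕ, t.Coprime a ∧ ∀ q : ℕ, q.Prime → q ∣ N → q ∣ a ∨ q ∣ t := by
  refine ⟨∏ q ∈ N.primeFactors.filter (fun q => ¬q ∣ a), q, Nat.Coprime.prod_left fun q hq => ?_,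
    fun q hq h => ?_⟩
  · rw [Finset.mem_filter] at hq
    exact (Nat.prime_of_mem_primeFactors hq.1).coprime_iff_not_dvd.2 hq.2
  · by_cases k : q ∣ a
    · exact Or.inl k
    · exact Or.inr (Finset.dvd_prod_of_mem _
        (Finset.mem_filter.2 ⟨Nat.mem_primeFactors.2 ⟨hq, h, hN⟩, k⟩))

theorem eq_of_pows {u v : G} {S T : ℕ} (c : S.Coprime T) (h1 : u ^ S = v ^ S)
    (h2 : u ^ T = v ^ T) : u = v := by
  have k : ∀ x : G, x = (x ^ S) ^ Nat.gcdA S T * (x ^ T) ^ Nat.gcdB S T := fun x => by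
    rw [← zpow_natCast, ← zpow_natCast, ← zpow_mul, ← zpow_mul, ← zpow_add,
      ← Nat.gcd_eq_gcd_ab, c.gcd_eq_one]
    simp
  rw [k u, k v, h1, h2]

theorem ord_cj {x y : G} (c : IsConj x y) : orderOf x = orderOf y := by
  obtain ⟨t, rfl⟩ := isConj_iff.1 c
  exact ((MulAut.conj t).orderOf_eq x).symm

theorem cen_pow {P : Subgroup G} {g a : G} (hg : P ≤ centralizer {g}) (ha : a ∈ zpowers g) :
    P ≤ centralizer {a} := fun b hb => by
  obtain ⟨k, rfl⟩ := mem_zpowers_iff.1 ha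
  exact mem_centralizer_singleton_iff.2
    (Commute.zpow_right (mem_centralizer_singleton_iff.1 (hg hb)) k)

theorem ord_pow [Finite G] {w : G} {d e : ℕ} (h : orderOf w = d * e) : orderOf (w ^ e) = d := by
  have e0 : 0 < e := Nat.pos_of_mul_pos_left (h ▸ orderOf_pos w)
  rw [orderOf_pow, h, Nat.gcd_mul_left_left, Nat.mul_div_cancel _ e0]

theorem same_ord [Finite G] {g a b : G} (ha : a ∈ zpowers g) (hb : b ∈ zpowers g)
    (e : orderOf a = orderOf b) : ∃ s : ℕ, s.Coprime (Nat.card G) ∧ b = a ^ s := by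
  have k : ∀ x ∈ zpowers g, ∀ d e, orderOf g = d * e → orderOf x = d →
      zpowers x = zpowers (g ^ e) := by
    intro x hx d e h1 h2
    refine eq_of_le_of_card_ge (zpowers_le.2 ?_)
      (by rw [Nat.card_zpowers, Nat.card_zpowers, h2, ord_pow h1])
    obtain ⟨i, rfl⟩ := (mem_powers_iff_mem_zpowers.2 hx : ∃ i : ℕ, g ^ i = x)
    have h3 : d * e ∣ d * i := by
      rw [← h1, orderOf_dvd_iff_pow_eq_one, mul_comm, pow_mul, ← h2, pow_orderOf_eq_one]
    obtain ⟨j, rfl⟩ := Nat.dvd_of_mul_dvd_mul_left (h2 ▸ orderOf_pos _) h3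
    change g ^ (e * j) ∈ _
    rw [pow_mul]
    exact pow_mem (mem_zpowers _) j
  obtain ⟨f, hf⟩ := orderOf_dvd_of_mem_zpowers ha
  have e1 : zpowers a = zpowers b := (k a ha _ f hf rfl).trans (k b hb _ f hf e.symm).symm
  obtain ⟨i, rfl⟩ := (mem_powers_iff_mem_zpowers.2 (e1 ▸ mem_zpowers b) : ∃ i : ℕ, a ^ i = b)
  have c : i.Coprime (orderOf a) := mem_zpowers_pow_iff.1 (e1 ▸ mem_zpowers a)
  obtain ⟨t, h1, h2⟩ := exists_t (Nat.card G) i Nat.card_pos.ne'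
  refine ⟨i + orderOf a * t, Nat.coprime_of_dvd fun q hq h3 h4 => ?_, by
    rw [pow_add, pow_mul, pow_orderOf_eq_one, one_pow, mul_one]⟩
  rcases h2 q hq h4 with h5 | h5
  · exact hq.ne_one (Nat.eq_one_of_dvd_coprimes (c.mul_right h1.symm) h5
      ((Nat.dvd_add_right h5).1 h3))
  · exact hq.ne_one (Nat.eq_one_of_dvd_coprimes h1 h5 ((Nat.dvd_add_left (h5.mul_left _)).1 h3))

open MulAction in
theorem jordan [Finite G] (D : Subgroup G) (h : ∀ x : G, ∃ c : G, c⁻¹ * x * c ∈ D) : D = ⊤ := by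
  classical
  have := Fintype.ofFinite G
  have e := sum_card_fixedBy_eq_card_orbits_mul_card_group G (G ⧸ D)
  have u : Fintype.card (Quotient (orbitRel G (G ⧸ D))) ≤ 1 :=
    Fintype.card_le_one_iff_subsingleton.2 ⟨fun a b => Quotient.inductionOn₂ a b fun a b =>
      Quotient.sound (exists_smul_eq G b a)⟩
  by_contra k
  have lt : ∑ _g : G, 1 < ∑ g : G, Fintype.card (fixedBy (G ⧸ D) g) := by
    refine Finset.sum_lt_sum (fun g _ => Fintype.card_pos_iff.2 ?_) ⟨1, Finset.mem_univ _, ?_⟩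
    · obtain ⟨c, hc⟩ := h g
      refine ⟨⟨(c : G ⧸ D), ?_⟩⟩
      rw [mem_fixedBy, Quotient.smul_mk, eq_comm, QuotientGroup.eq, smul_eq_mul, ← mul_assoc]
      exact hc
    · obtain ⟨x, hx⟩ : ∃ x, x ∉ D := by
        by_contra k'
        exact k ((eq_top_iff' D).2 fun x => not_not.1 fun hx => k' ⟨x, hx⟩)
      refine Fintype.one_lt_card_iff.2 ⟨⟨((1 : G) : G ⧸ D), by simp⟩, ⟨(x : G ⧸ D), by simp⟩,
        fun e => hx ?_⟩
      simpa using QuotientGroup.eq.1 (congrArg Subtype.val e)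
  rw [e, Finset.sum_const, Finset.card_univ, smul_eq_mul, mul_one] at lt
  exact lt.not_ge ((Nat.mul_le_mul_right _ u).trans (by rw [one_mul]))

variable [Fintype G] [Fintype H] [hp : Fact p.Prime] {P : Subgroup G} {Q : Subgroup H} {g : G}

/-- the regular elements centralising `P` are the powers of `g`, and `g` is not fused -/
structure Cy (p : ℕ) (P : Subgroup G) (g : G) : Prop where
  sy : Sy p P
  hg : P ≤ centralizer {g}
  gen : ∀ x, P ≤ centralizer {x} → ¬p ∣ orderOf x → x ∈ zpowers g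
  cen : ∀ n ∈ normalizer (P : Set G), n * g * n⁻¹ = g

omit [Fintype G] hp in
theorem Cy.fix (k : Cy p P g) {a n : G} (ha : a ∈ zpowers g) (hn : n ∈ normalizer (P : Set G)) :
    n * a * n⁻¹ = a :=
  mem_cen.1 (cen_pow (P := centralizer {g}) le_rfl ha (mem_cen.2 (k.cen n hn)))

theorem Cy.unf (k : Cy p P g) {a b : G} (ha : a ∈ zpowers g) (hb : P ≤ centralizer {b})
    (c : IsConj a b) : a = b := by
  obtain ⟨n, hn, e⟩ := k.sy.fusion (cen_pow k.hg ha) hb c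
  rw [← e, k.fix ha hn]

theorem part (h : Mt F) (hP : Sy p P) (hQ : Sy p Q) {w : H} (hw : Q ≤ centralizer {w}) :
    ∃ a, P ≤ centralizer {a} ∧ IsConj (F a) w ∧ IsConj (F.symm w) a := by
  obtain ⟨a, c, ha⟩ := h.symm.central hQ hP hw
  exact ⟨a, ha, by simpa using (h.conj _ _).2 c.symm, c⟩

theorem Cy.part (k : Cy p P g) (h : Mt F) (hQ : Sy p Q) {w : H} (hw : Q ≤ centralizer {w})
    (wr : ¬p ∣ orderOf w) : ∃ a ∈ zpowers g, IsConj (F a) w := by
  obtain ⟨a, h1, h2, h3⟩ := CQ.part h k.sy hQ hw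
  exact ⟨a, k.gen a h1 (ord_cj h3 ▸ h.symm.reg hp.out wr), h2⟩

theorem Cy.dvd (k : Cy p P g) (h : Mt F) {a : G} {w : H} (ha : a ∈ zpowers g)
    (c : IsConj (F a) w) : orderOf a ∣ orderOf w := by
  obtain ⟨t, h1, h2⟩ := exists_t (Nat.card G) (orderOf w) Nat.card_pos.ne'
  have co : (1 + orderOf w * t).Coprime (Nat.card G) := Nat.coprime_of_dvd fun q hq h3 h4 =>
    hq.ne_one (Nat.dvd_one.1 ((Nat.dvd_add_left (hq.dvd_mul.2 (h2 q hq h4))).1 h3))
  have c1 := (h.gal a _ co).trans (c.pow _)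
  rw [pow_add w, pow_mul w, pow_orderOf_eq_one, one_pow, mul_one, pow_one] at c1
  have e := k.unf (pow_mem ha _) (cen_pow k.hg ha) ((h.conj _ _).1 (c1.trans c.symm))
  rw [pow_add, pow_one, mul_eq_left] at e
  obtain ⟨j, hj⟩ := (h.symm.pe (orderOf_pos w).ne' (g := w) ⟨1, by simp⟩).cj
    (y := a) (cj_top.2 (by simpa using (h.symm.conj _ _).2 c.symm))
  exact ((h1.symm.pow_left j).coprime_dvd_left
    (orderOf_dvd_of_pow_eq_one hj)).dvd_of_dvd_mul_right (orderOf_dvd_of_pow_eq_one e)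

theorem Cy.ord (k : Cy p P g) (h : Mt F) (hQ : Sy p Q) (n : ℕ) : ∀ w : H, orderOf w = n →
    Q ≤ centralizer {w} → ¬p ∣ orderOf w → ∀ a ∈ zpowers g, IsConj (F a) w → orderOf a = n := by
  induction n using Nat.strong_induction_on with
  | _ n ih =>
  intro w e hw wr a ha c
  obtain ⟨f, hf⟩ := k.dvd h ha c
  by_contra ne
  have o := ord_pow hf
  have hw' := cen_pow hw (pow_mem (mem_zpowers w) f)
  have wr' : ¬p ∣ orderOf (w ^ f) := fun d => wr (d.trans (orderOf_pow_dvd f))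
  obtain ⟨b, hb, c'⟩ := k.part h hQ hw' wr'
  have lt : orderOf a < n := lt_of_le_of_ne (e ▸ Nat.le_of_dvd (orderOf_pos w) ⟨f, hf⟩) ne
  obtain ⟨s, hs, rfl⟩ := same_ord ha hb (ih _ lt _ o hw' wr' b hb c').symm
  have := ord_cj (c'.symm.trans ((h.gal a s hs).trans (c.pow s)))
  rw [← Mt.card F] at hs
  rw [o, (hs.symm.coprime_dvd_left (orderOf_dvd_natCard w)).orderOf_pow] at this
  exact ne (this.trans e)

theorem Cy.pw (k : Cy p P g) (h : Mt F) (hQ : Sy p Q) {y w : H} (hy : Q ≤ centralizer {y})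
    (yr : ¬p ∣ orderOf y) (o : orderOf y = orderOf g) (hw : Q ≤ centralizer {w})
    (wr : ¬p ∣ orderOf w) : ∃ x ∈ zpowers y, IsConj x w := by
  obtain ⟨a, ha, c⟩ := k.part h hQ hw wr
  obtain ⟨f, hf⟩ := orderOf_dvd_of_mem_zpowers ha
  have hy' := cen_pow hy (pow_mem (mem_zpowers y) f)
  have yr' : ¬p ∣ orderOf (y ^ f) := fun d => yr (d.trans (orderOf_pow_dvd f))
  obtain ⟨b, hb, c'⟩ := k.part h hQ hy' yr'
  obtain ⟨s, hs, rfl⟩ := same_ord hb ha
    (k.ord h hQ _ _ (ord_pow (o.trans hf)) hy' yr' b hb c')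
  exact ⟨_, pow_mem (pow_mem (mem_zpowers y) f) s,
    ((h.gal b s hs).trans (c'.pow s)).symm.trans c⟩

theorem reg_S (x : G) : ¬p ∣ orderOf (x ^ p ^ Nat.card G) := by
  obtain ⟨m, hm, k⟩ := reg_pow (G := G) hp.out Nat.card_pos.ne' fun _ => pow_card_eq_one'
  exact fun d => hp.out.coprime_iff_not_dvd.1 hm.symm (d.trans (orderOf_dvd_of_pow_eq_one (k x)))

theorem Cy.two (k : Cy p P g) (h : Mt F) (hQ : Sy p Q) {z : H} (hz : z ∈ Q)
    (zc : Q ≤ centralizer {z})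
    (hs : ∀ n ∈ normalizer (Q : Set H), n * z * n⁻¹ = z → n ∈ Q ⊔ centralizer (Q : Set H))
    {w w' : H} (hw : Q ≤ centralizer {w}) (hw' : Q ≤ centralizer {w'}) (wr : ¬p ∣ orderOf w)
    (c : IsConj w w') : ∃ t ∈ centralizer (Q : Set H), t * w * t⁻¹ = w' := by
  have zw : ∀ {v : H}, Q ≤ centralizer {v} → Q ≤ centralizer {z * v} := fun hv b hb =>
    mem_centralizer_singleton_iff.2 (Commute.mul_right (mem_centralizer_singleton_iff.1 (zc hb))
      (mem_centralizer_singleton_iff.1 (hv hb)))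
  have cm : ∀ {v : H}, Q ≤ centralizer {v} → ∀ j, (z * v) ^ j = z ^ j * v ^ j := fun hv j =>
    Commute.mul_pow (mem_centralizer_singleton_iff.1 (hv hz)) j
  have zS : z ^ p ^ Nat.card H = 1 := (pe_iff hp.out.ne_zero).1 (pe_of_mem hQ.pg hz)
  have wT : ∀ v : H, orderOf v = orderOf w → v ^ orderOf w ^ Nat.card H = 1 := fun v e =>
    (pe_iff (orderOf_pos w).ne').1 ⟨1, by rw [pow_one, ← e, pow_orderOf_eq_one]⟩
  have co : (p ^ Nat.card H).Coprime (orderOf w ^ Nat.card H) :=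
    (hp.out.coprime_iff_not_dvd.2 wr).pow _ _
  obtain ⟨x, h1, h2, h3⟩ := CQ.part h k.sy hQ (zw hw)
  obtain ⟨x', h1', h2', h3'⟩ := CQ.part h k.sy hQ (zw hw')
  have cp : ∀ {x : G}, P ≤ centralizer {x} → ∀ j : ℕ, P ≤ centralizer {x ^ j} := fun hx j =>
    cen_pow hx (pow_mem (mem_zpowers _) j)
  have m1 := k.gen _ (cp h1 _) (reg_S x)
  have e1 : x ^ p ^ Nat.card G = x' ^ p ^ Nat.card G := by
    refine k.unf m1 (cp h1' _) ((h.sec p hp.out x x').1
      ((h2.pow _).trans (IsConj.trans ?_ (h2'.pow _).symm)))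
    rw [← Mt.card F, cm hw, cm hw', zS, one_mul, one_mul]
    exact c.pow _
  rw [← Mt.card F] at e1 m1
  have c2 := h.symm.secs (orderOf_pos w).ne' (z * w) (z * w') (by
    rw [cm hw, cm hw', wT w rfl, wT w' (ord_cj c).symm])
  obtain ⟨n, hn, e2⟩ := k.sy.fusion (cp h1 _) (cp h1' _)
    ((h3.pow _).symm.trans (c2.trans (h3'.pow _)))
  have e3 : n * x * n⁻¹ = x' := eq_of_pows co (by rw [conj_pow, k.fix m1 hn, e1])
    (by rw [conj_pow, e2])
  obtain ⟨t, ht, e4⟩ := hQ.fusion (zw hw) (zw hw')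
    (h2.symm.trans (((h.conj _ _).2 (isConj_iff.2 ⟨n, e3⟩)).trans h2'))
  have e5 : t * z * t⁻¹ = z := eq_of_pows co (by rw [conj_pow, zS]; simp) (by
    have := congrArg (· ^ orderOf w ^ Nat.card H) e4
    simp only [conj_pow] at this ⊢
    rwa [cm hw, cm hw', wT w rfl, wT w' (ord_cj c).symm, mul_one] at this)
  have e6 : t * w * t⁻¹ = w' := mul_left_cancel (a := z) (by
    rw [← e4]
    nth_rw 1 [← e5]
    group)
  have hm : t ∈ ((Q ⊔ centralizer (Q : Set H) : Subgroup H) : Set H) := hs t ht e5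
  rw [sup_comm, coe_mul_of_right_le_normalizer_left _ _ fun b hb => mem_norm fun a ha q hq => by
    have := ha _ (mul_mem (mul_mem (inv_mem hb) hq) hb)
    calc _ = b * (b⁻¹ * q * b * a) * b⁻¹ := by group
      _ = _ := by rw [this]; group] at hm
  obtain ⟨a, ha, b, hb, rfl⟩ := hm
  refine ⟨a, ha, ?_⟩
  rw [← e6, ← mem_cen.1 (hw hb)]
  simp only [mem_cen.1 (hw hb)]
  nth_rw 1 [← mem_cen.1 (hw hb)]
  group

theorem core (h : Mt F) (hP : Sy p P) (hQ : Sy p Q) {g : G} (hg : P ≤ centralizer {g})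
    (gr : ¬p ∣ orderOf g) (gen : ∀ x, P ≤ centralizer {x} → ¬p ∣ orderOf x → x ∈ zpowers g)
    (cen : ∀ n ∈ normalizer (P : Set G), n * g * n⁻¹ = g) {z : H} (hz : z ∈ Q)
    (zc : Q ≤ centralizer {z})
    (hs : ∀ n ∈ normalizer (Q : Set H), n * z * n⁻¹ = z → n ∈ Q ⊔ centralizer (Q : Set H)) :
    ∃ y : H, Q ≤ centralizer {y} ∧ orderOf y = orderOf g ∧
      (∀ w, Q ≤ centralizer {w} → ¬p ∣ orderOf w → w ∈ zpowers y) ∧
      ∀ n ∈ normalizer (Q : Set H), n * y * n⁻¹ = y := by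
  have k : Cy p P g := ⟨hP, hg, gen, cen⟩
  obtain ⟨y, c, hy⟩ := h.central hP hQ hg
  have yr : ¬p ∣ orderOf y := ord_cj c ▸ h.reg hp.out gr
  have o := (k.ord h hQ _ y rfl hy yr g (mem_zpowers g) c).symm
  have cc : ∀ {x : H}, x ∈ centralizer (Q : Set H) ↔ Q ≤ centralizer {x} :=
    ⟨fun hx b hb => mem_centralizer_singleton_iff.2 (hx b hb),
      fun hx b hb => mem_centralizer_singleton_iff.1 (hx hb)⟩
  have pw : ∀ w, Q ≤ centralizer {w} → ¬p ∣ orderOf w →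
      ∃ x ∈ zpowers y, ∃ t ∈ centralizer (Q : Set H), t * x * t⁻¹ = w := fun w hw wr => by
    obtain ⟨x, hx, c⟩ := k.pw h hQ hy yr o hw wr
    exact ⟨x, hx, k.two h hQ hz zc hs (cen_pow hy hx) hw (ord_cj c ▸ wr) c⟩
  have top : (centralizer {y}).subgroupOf (centralizer (Q : Set H)) = ⊤ := by
    obtain ⟨e, he⟩ := exists_pt (G := H) hp.out
    refine jordan _ fun x => ?_
    have u := pow_mem x.2 e
    obtain ⟨v, hv, t, ht, e1⟩ := pw _ (cc.1 (mul_mem x.2 (inv_mem u))) (he.reg x)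
    have uq := hQ.mem (he.pel x) (cc.1 u)
    refine ⟨⟨t, ht⟩, mem_subgroupOf.2 ?_⟩
    have e2 : t⁻¹ * x * t = v * x.1 ^ e := by
      have e3 := ht _ uq
      calc _ = t⁻¹ * (x.1 * (x.1 ^ e)⁻¹) * (x.1 ^ e * t) := by group
        _ = _ := by rw [← e1, e3]; group
    change t⁻¹ * x * t ∈ _
    rw [e2]
    refine mul_mem ?_ (hy uq)
    obtain ⟨j, rfl⟩ := mem_zpowers_iff.1 hv
    exact mem_centralizer_singleton_iff.2 (Commute.zpow_self y j)
  have cy : ∀ t ∈ centralizer (Q : Set H), t ∈ centralizer {y} := fun t ht =>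
    mem_subgroupOf.1 (top ▸ mem_top (⟨t, ht⟩ : centralizer (Q : Set H)))
  refine ⟨y, hy, o, fun w hw wr => ?_, fun n hn => ?_⟩
  · obtain ⟨x, hx, t, ht, rfl⟩ := pw w hw wr
    rwa [mem_cen.1 (cen_pow (P := centralizer {y}) le_rfl hx (cy t ht))]
  · obtain ⟨t, ht, e⟩ := k.two h hQ hz zc hs hy (w' := n * y * n⁻¹) (fun b hb => mem_cen.2 (by
      have := mem_cen.1 (hy (norm_mem (inv_mem hn) hb))
      calc _ = n * (n⁻¹ * b * n⁻¹⁻¹ * y * (n⁻¹ * b * n⁻¹⁻¹)⁻¹) * n⁻¹ := by group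
        _ = _ := by rw [this])) yr (isConj_iff.2 ⟨n, rfl⟩)
    rw [← e, mem_cen.1 (cy t ht)]

end Pool.Agent.MP_abb977_al.CQ
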