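import Pool.Agent.MP_abb977_al.CQ.Core

/-! From a cyclic quotient of the normaliser to a generator, and back. -/

namespace Pool.Agent.MP_abb977_al.CQ

open Pool.Agent.MP_abb977_al.H94 Subgroup

variable {G : Type} [Group G] {p : ℕ} {P : Subgroup G}

theorem cc {x : G} : x ∈ centralizer (P : Set G) ↔ P ≤ centralizer {x} :=
  ⟨fun hx b hb => mem_centralizer_singleton_iff.2 (hx b hb),
    fun hx _ hb => mem_centralizer_singleton_iff.1 (hx hb)⟩

theorem cen_cj {n y : G} (hn : n ∈ normalizer (P : Set G)) (hy : P ≤ centralizer {y}) :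
    P ≤ centralizer {n * y * n⁻¹} := fun b hb => mem_cen.2 (by
  have := mem_cen.1 (hy (norm_mem (inv_mem hn) hb))
  calc _ = n * (n⁻¹ * b * n⁻¹⁻¹ * y * (n⁻¹ * b * n⁻¹⁻¹)⁻¹) * n⁻¹ := by group
    _ = _ := by rw [this])

variable [Fintype G] [hp : Fact p.Prime]

theorem reg_inj (hP : Sy p P) {a b : G} (ha : P ≤ centralizer {a}) (ar : ¬p ∣ orderOf a)
    (br : ¬p ∣ orderOf b) (h : a⁻¹ * b ∈ P) : a = b := by
  obtain ⟨e, he⟩ := exists_pt (G := G) hp.out
  have c : Commute a (a⁻¹ * b) := (mem_centralizer_singleton_iff.1 (ha h)).symm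
  have := c.mul_pow e
  rw [mul_inv_cancel_left, he.kill b br, he.kill a ar, one_mul,
    he.fix _ (pe_of_mem hP.pg h)] at this
  exact inv_mul_eq_one.1 this.symm

theorem reg_part (hP : Sy p P) {c : G} (hc : P ≤ centralizer {c}) :
    ∃ g, P ≤ centralizer {g} ∧ ¬p ∣ orderOf g ∧ g⁻¹ * c ∈ P := by
  obtain ⟨e, he⟩ := exists_pt (G := G) hp.out
  have u := pow_mem (cc.2 hc) e
  refine ⟨_, cc.1 (mul_mem (cc.2 hc) (inv_mem u)), he.reg c, ?_⟩
  simpa using hP.mem (he.pel c) (cc.1 u)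

theorem gen_of (hP : Sy p P)
    (hc : IsCyclic (normalizer (P : Set G) ⧸ P.subgroupOf (normalizer (P : Set G)))) :
    ∃ g, P ≤ centralizer {g} ∧ ¬p ∣ orderOf g ∧
      (∀ x, P ≤ centralizer {x} → ¬p ∣ orderOf x → x ∈ zpowers g) ∧
      ∀ n ∈ normalizer (P : Set G), n * g * n⁻¹ = g := by
  let π := QuotientGroup.mk' (P.subgroupOf (normalizer (P : Set G)))
  have cn : ∀ {x : G}, P ≤ centralizer {x} → x ∈ normalizer (P : Set G) := fun hx =>
    centralizer_le_normalizer _ (cc.2 hx)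
  obtain ⟨b, hb⟩ := (isCyclic_iff_exists_zpowers_eq_top
    (α := ((centralizer (P : Set G)).subgroupOf (normalizer (P : Set G))).map π)).1 inferInstance
  obtain ⟨_, c, hc', rfl⟩ := b
  obtain ⟨g, h1, h2, h3⟩ := reg_part hP (cc.1 (mem_subgroupOf.1 hc'))
  have e : π ⟨g, cn h1⟩ = π c := QuotientGroup.eq.2 h3
  refine ⟨g, h1, h2, fun x hx xr => ?_, fun n hn => ?_⟩
  · obtain ⟨k, hk⟩ := mem_zpowers_iff.1 ((eq_top_iff' _).1 hb
      ⟨π ⟨x, cn hx⟩, mem_map_of_mem π (mem_subgroupOf.2 (cc.2 hx))⟩)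
    have e2 : π ⟨x, cn hx⟩ = π (⟨g, cn h1⟩ ^ k) := by
      rw [map_zpow, e]
      exact (congrArg Subtype.val hk).symm
    have m := zpow_mem (mem_zpowers g) k
    rw [reg_inj hP hx xr (fun d => h2 (d.trans (orderOf_dvd_of_mem_zpowers m)))
      (mem_subgroupOf.1 (QuotientGroup.eq.1 e2))]
    exact m
  · have e2 : π ⟨g, cn h1⟩ = π (⟨n, hn⟩ * ⟨g, cn h1⟩ * ⟨n, hn⟩⁻¹) := by
      rw [map_mul, map_mul, map_inv, hc.isMulCommutative.is_comm.comm (π ⟨n, hn⟩),
        mul_inv_cancel_right]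
    exact (reg_inj hP h1 h2 (ord_cj (isConj_iff.2 ⟨n, rfl⟩) ▸ h2)
      (mem_subgroupOf.1 (QuotientGroup.eq.1 e2))).symm

theorem cyc_of (hP : Sy p P) {y t : G} (hy : P ≤ centralizer {y})
    (gen : ∀ x, P ≤ centralizer {x} → ¬p ∣ orderOf x → x ∈ zpowers y)
    (cen : ∀ n ∈ normalizer (P : Set G), n * y * n⁻¹ = y) (ht : t ∈ normalizer (P : Set G))
    (top : normalizer (P : Set G) ≤ zpowers t ⊔ (P ⊔ centralizer (P : Set G)))
    (co : ((P ⊔ centralizer (P : Set G)).relIndex (normalizer (P : Set G))).Coprime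
      (P.relIndex (P ⊔ centralizer (P : Set G)))) :
    IsCyclic (normalizer (P : Set G) ⧸ P.subgroupOf (normalizer (P : Set G))) := by
  have hn : y ∈ normalizer (P : Set G) := centralizer_le_normalizer _ (cc.2 hy)
  have le : P ⊔ centralizer (P : Set G) ≤ normalizer (P : Set G) :=
    sup_le le_normalizer (centralizer_le_normalizer _)
  have nn : ∀ n ∈ normalizer (P : Set G), ∀ x ∈ P ⊔ centralizer (P : Set G),
      n * x * n⁻¹ ∈ P ⊔ centralizer (P : Set G) := fun n h x hx =>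
    (sup_le (fun a ha => mem_comap.2 (mem_sup_left (norm_mem h ha)))
      (fun a ha => mem_comap.2 (mem_sup_right (cc.2 (cen_cj h (cc.1 ha))))) :
      _ ≤ (P ⊔ centralizer (P : Set G)).comap (MulAut.conj n).toMonoidHom) hx
  have : ((P ⊔ centralizer (P : Set G)).subgroupOf (normalizer (P : Set G))).Normal :=
    ⟨fun x hx n => nn n n.2 x hx⟩
  have : (P.subgroupOf (P ⊔ centralizer (P : Set G))).Normal :=
    ⟨fun x hx n => mem_subgroupOf.2 (norm_mem (A := P) (le n.2) (mem_subgroupOf.1 hx))⟩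
  generalize hE : (P ⊔ centralizer (P : Set G)).relIndex (normalizer (P : Set G)) = E at co
  generalize hM : P.relIndex (P ⊔ centralizer (P : Set G)) = M at co
  have tE : t ^ E ∈ P ⊔ centralizer (P : Set G) :=
    hE ▸ ((P ⊔ centralizer (P : Set G)).subgroupOf _).pow_index_mem ⟨t, ht⟩
  have xM : ∀ x ∈ P ⊔ centralizer (P : Set G), x ^ M ∈ P := fun x hx =>
    hM ▸ (P.subgroupOf (P ⊔ centralizer (P : Set G))).pow_index_mem ⟨x, hx⟩
  have c : Commute t y := mul_inv_eq_iff_eq_mul.1 (cen t ht)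
  have gn : t ^ M * y ∈ normalizer (P : Set G) := mul_mem (pow_mem ht M) hn
  have bz : ∀ (D : Subgroup G) (x : G), x ^ E ∈ D → x ^ M ∈ D → x ∈ D := fun D x h1 h2 => by
    have : x = (x ^ E) ^ Nat.gcdA E M * (x ^ M) ^ Nat.gcdB E M := by
      rw [← zpow_natCast, ← zpow_natCast, ← zpow_mul, ← zpow_mul, ← zpow_add,
        ← Nat.gcd_eq_gcd_ab, co.gcd_eq_one]
      simp
    rw [this]
    exact mul_mem (zpow_mem h1 _) (zpow_mem h2 _)
  set D := zpowers (t ^ M * y) ⊔ P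
  have gD : t ^ M * y ∈ D := mem_sup_left (mem_zpowers _)
  have yD : y ∈ D := by
    refine bz D y ?_ (mem_sup_right (xM y (mem_sup_right (cc.2 hy))))
    have h1 := pow_mem gD E
    rw [(c.pow_left M).mul_pow, pow_right_comm] at h1
    exact (mul_mem_cancel_left (mem_sup_right (xM _ tE))).1 h1
  have cD : P ⊔ centralizer (P : Set G) ≤ D := sup_le le_sup_right fun x hx => by
    obtain ⟨w, h1, h2, h3⟩ := reg_part hP (cc.1 hx)
    simpa using mul_mem (zpowers_le.2 yD (gen w h1 h2)) (mem_sup_right h3 : _ ∈ D)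
  have tD : t ∈ D := bz D t (cD tE) ((mul_mem_cancel_right yD).1 gD)
  refine isCyclic_iff_exists_zpowers_eq_top.2 ⟨QuotientGroup.mk ⟨_, gn⟩, eq_top_iff.2 ?_⟩
  rintro ⟨x⟩ -
  have hx : x.1 ∈ (D : Set G) := (top.trans (sup_le (zpowers_le.2 tD) cD)) x.2
  rw [coe_mul_of_left_le_normalizer_right _ _ (zpowers_le.2 gn)] at hx
  obtain ⟨_, ⟨k, rfl⟩, b, hb, e⟩ := hx
  refine ⟨k, (QuotientGroup.eq (a := (⟨_, gn⟩ : normalizer (P : Set G)) ^ k) (b := x)).2 ?_⟩
  rw [mem_subgroupOf]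
  simpa [← e] using hb

end Pool.Agent.MP_abb977_al.CQ
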