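import Pool.Agent.MP_abb977_al.H94.Tr

/-! Homocyclic Sylow subgroups: the polynomial of fixed point dimensions is visible. -/

namespace Pool.Agent.MP_abb977_al.CQP

open Pool.Agent.MP_abb977_al.H94 Subgroup Finset Polynomial

variable {p a n : ℕ} [hp : Fact p.Prime]

theorem fixc {B : Type} [CommGroup B] [Finite B] {α : B →* B} (h : Co p α)
    (ex : ∀ x : B, x ^ p ^ a = 1) (hc : Nat.card B = p ^ (a * n))
    (rk : Nat.card (Om B p) ≤ p ^ n) : ∃ d ≤ n, ∀ k ≤ a,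
      Nat.card ((dl α).ker ⊓ Om B (p ^ k) : Subgroup B) = p ^ (k * d) := by
  obtain ⟨d, hd⟩ := (h.pg.to_subgroup ((dl α).ker ⊓ Om B p)).exists_card_eq
  have h1 := (dl α).ker.card_mul_index
  rw [index_ker, hc] at h1
  have dj := h.disj
  generalize (dl α).ker = C at hd h1 dj ⊢
  generalize (dl α).range = D at h1 dj
  have h2 := Nat.card_le_card_of_injective (β := Om B p)
    (fun g : (C ⊓ Om B p : Subgroup B) × (D ⊓ Om B p : Subgroup B) =>
      ⟨g.1 * g.2, mul_mem g.1.2.2 g.2.2.2⟩) fun _ _ e => mul_injective_of_disjoint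
      (dj.mono inf_le_left inf_le_left) (congrArg Subtype.val e)
  rw [Nat.card_prod, hd] at h2
  have h3 := om_le (p := p) C a
  have h4 := om_le (p := p) D a
  rw [inf_eq_left.2 fun x _ => mem_Om.2 (ex x)] at h3 h4
  have e0 : 0 < Nat.card (D ⊓ Om B p : Subgroup B) := Nat.card_pos
  generalize Nat.card (D ⊓ Om B p : Subgroup B) = e at h2 h4 e0
  have h5 : (p ^ d) ^ a ≤ Nat.card C := Nat.le_of_mul_le_mul_right (by
    calc (p ^ d) ^ a * e ^ a = (p ^ d * e) ^ a := (mul_pow _ _ _).symm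
      _ ≤ (p ^ n) ^ a := Nat.pow_le_pow_left (h2.trans rk) a
      _ = Nat.card C * Nat.card D := by rw [h1, ← pow_mul, mul_comm]
      _ ≤ Nat.card C * e ^ a := Nat.mul_le_mul_left _ h4) (pow_pos e0 a)
  refine ⟨d, (Nat.pow_le_pow_iff_right hp.out.one_lt).1
    ((Nat.le_mul_of_pos_right _ e0).trans (h2.trans rk)), fun k hk => le_antisymm ?_ ?_⟩
  · rw [mul_comm, pow_mul, ← hd]
    exact om_le C k
  · obtain ⟨j, rfl⟩ := Nat.exists_eq_add_of_le hk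
    have h6 : Nat.card (C.map (powMonoidHom (p ^ k) : B →* B)) ≤ (p ^ d) ^ j := by
      rw [← hd]
      refine (card_le_of_le ?_).trans (om_le C j)
      rintro _ ⟨x, hx, rfl⟩
      exact ⟨pow_mem hx _, mem_Om.2 (by rw [powMonoidHom_apply, ← pow_mul, ← pow_add, ex])⟩
    rw [H94.card_map (powMonoidHom (p ^ k) : B →* B) C, pow_add, mul_comm] at h5
    rw [mul_comm, pow_mul]
    exact Nat.le_of_mul_le_mul_left (h5.trans (Nat.mul_le_mul_right _ h6))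
      (pow_pos (pow_pos hp.out.pos d) j)

variable {G H : Type} [Group G] [Group H] {F : G ≃ H} {P : Subgroup G} {Q : Subgroup H}

/-- homocyclic subgroups -/
structure Ho (p a n : ℕ) (P : Subgroup G) : Prop where
  comm : ∀ x ∈ P, P ≤ centralizer {x}
  ex : ∀ x ∈ P, x ^ p ^ a = 1
  card : Nat.card P = p ^ (a * n)
  rank : {x | x ∈ P ∧ x ^ p = 1}.ncard ≤ p ^ n

/-- elements killed by `m` -/
def Ok (c : ∀ x ∈ P, P ≤ centralizer {x}) (m : ℕ) : Subgroup G where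
  carrier := {x | x ∈ P ∧ x ^ m = 1}
  one_mem' := ⟨one_mem P, one_pow m⟩
  inv_mem' := fun h => ⟨inv_mem h.1, by rw [inv_pow, h.2, inv_one]⟩
  mul_mem' := fun {x y} h k => ⟨mul_mem h.1 k.1, by
    rw [Commute.mul_pow (mem_centralizer_singleton_iff.1 (c y k.1 h.1)), h.2, k.2, one_mul]⟩

variable [Fintype G] [Fintype H]

theorem Ho.dim (h : Ho p a n P) (hP : Sy p P) (t : G) : ∃ d ≤ n,
    t ∈ ⊤ ⊓ normalizer (P : Set G) → ∀ k ≤ a, cz (Ok h.comm (p ^ k)) t = p ^ (k * d) := by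
  by_cases ht : t ∈ normalizer (P : Set G)
  swap
  · exact ⟨0, n.zero_le, fun k => absurd k.2 ht⟩
  let _ : CommGroup P := { (inferInstance : Group P) with
    mul_comm := fun x y => cen_iff.1 (h.comm x x.2) y }
  obtain ⟨d, h1, h2⟩ := fixc (a := a) (n := n) (act_co hP.pg ht hP.nI (h.comm _ (pow_nI ht)))
    (fun x => Subtype.ext (h.ex x x.2)) h.card (by
      refine le_of_eq_of_le ?_ h.rank
      rw [← Subgroup.card_subtype]
      exact congrArg Set.ncard (Set.ext fun x => ⟨fun ⟨y, hy, e⟩ =>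
        e ▸ ⟨y.2, congrArg Subtype.val hy⟩, fun k => ⟨⟨x, k.1⟩, Subtype.ext k.2, rfl⟩⟩))
  refine ⟨d, h1, fun _ k hk => ?_⟩
  rw [← h2 k hk, ← Subgroup.card_subtype, cz]
  congr 2
  ext x
  exact ⟨fun k => ⟨⟨x, k.1.1⟩, ⟨mem_fx.2 ((act_fix ht).2 k.2), Subtype.ext k.1.2⟩, rfl⟩,
    fun ⟨y, hy, e⟩ => e ▸ ⟨⟨y.2, congrArg Subtype.val hy.2⟩, (act_fix ht).1 (mem_fx.1 hy.1)⟩⟩

omit hp [Fintype G] in
theorem mt_refl : Mt (Equiv.refl G) :=
  ⟨fun _ _ => Iff.rfl, rfl, fun _ _ _ => IsConj.refl _, fun _ _ _ _ => Iff.rfl⟩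

omit hp [Fintype G] in
theorem kill_cj {x y : G} {m : ℕ} (c : IsConj x y) : x ^ m = 1 ↔ y ^ m = 1 :=
  ⟨fun h => isConj_one_right.1 (h ▸ c.pow m), fun h => isConj_one_left.1 (h ▸ c.pow m)⟩

theorem sums (hP : Sy p P) (c : ∀ x ∈ P, P ≤ centralizer {x}) (k : ℕ) :
    (∑ g : G, ind (g ^ p ^ k = 1) * cz ⊤ g) * Nat.card (⊤ ⊓ normalizer P : Subgroup G) =
      (∑ t, ind (t ∈ ⊤ ⊓ normalizer (P : Set G)) * cz (Ok c (p ^ k)) t) * Nat.card G ∧
    (∑ g : G, ind (g ^ p ^ k = 1) * rg p (centralizer {g})) *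
      Nat.card (⊤ ⊓ normalizer P : Subgroup G) =
      (∑ t, ind (t ∈ ⊤ ⊓ normalizer (P : Set G)) * (cz (Ok c (p ^ k)) t * (cz P t : ℚ)⁻¹)) *
        Nat.card G := by
  have as : AS p ⊤ P := ⟨le_top, hP.pg, hP.rel le_top, c⟩
  have hc : ∀ (Y : Subgroup G) x, (cz Y x : ℚ) ≠ 0 := fun Y x => Nat.cast_ne_zero.2 (cz_pos Y x).ne'
  have i1 : ∀ g : G, ind (g ∈ (⊤ : Subgroup G) ∧ pe p g) * ind (g ^ p ^ k = 1) =
      ind (g ^ p ^ k = 1) := fun g => by
    rw [← ind_and]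
    exact congrArg ind (propext ⟨fun h => h.2, fun h => ⟨⟨mem_top g, k, h⟩, h⟩⟩)
  have i2 : ∀ g : G, ind (g ∈ P) * ind (g ^ p ^ k = 1) = ind (g ∈ Ok c (p ^ k)) := fun g =>
    (ind_and _ _).symm
  constructor
  · have h1 := as.transfer (fun g => ind (g ^ p ^ k = 1)) fun x _ y e => by
      rw [kill_cj (cj_top.1 e)]
    have h2 := swap (Ok c (p ^ k)) (⊤ ⊓ normalizer (P : Set G)) fun _ => 1
    simp only [mul_one, H94.sum_mem] at h2
    simp only [← mul_assoc, i1, i2, card_top] at h1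
    rw [h1, ← h2]
    rfl
  · have h1 := as.transfer (fun g => ind (g ^ p ^ k = 1) * (rg p (centralizer {g}) / cz ⊤ g))
      fun x hx y e => by
        rw [kill_cj (cj_top.1 e), e.cz_eq,
          mt_refl.rg_cen hp.out (pe_of_mem hP.pg hx) (cj_top.1 e)]
    simp only [mul_assoc, div_mul_cancel₀ _ (hc ⊤ _)] at h1
    simp only [← mul_assoc, i1, i2, card_top] at h1
    rw [h1, ← swap]
    congr 1
    refine sum_congr rfl fun x _ => ?_
    rw [mul_assoc]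
    refine ind_congr fun hx => ?_
    have := (⟨c x hx.1, hP.pg, hP.rel (c x hx.1), c⟩ : AS p (centralizer {x}) P).rho
    rw [div_mul_eq_mul_div, div_eq_iff (hc ⊤ x), cz, cz, top_inf_eq, top_inf_eq, inf_comm, this,
      mul_comm]

theorem Ho.pol (h : Ho p a n P) (hP : Sy p P) (a0 : a ≠ 0) : ∃ φ : ℚ[X], φ.natDegree ≤ n ∧
    φ.coeff n * cI ⊤ P = 1 ∧ ∀ k ≤ a,
      φ.eval ((p : ℚ) ^ k) * Nat.card G = ∑ g : G, ind (g ^ p ^ k = 1) * cz ⊤ g ∧
      φ.eval ((p : ℚ) ^ k / p ^ a) * Nat.card G =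
        ∑ g : G, ind (g ^ p ^ k = 1) * rg p (centralizer {g}) := by
  choose d d1 d2 using h.dim hP
  have hN : (Nat.card (⊤ ⊓ normalizer P : Subgroup G) : ℚ) ≠ 0 :=
    Nat.cast_ne_zero.2 Nat.card_pos.ne'
  have top : Ok h.comm (p ^ a) = P := Subgroup.ext fun x => ⟨fun k => k.1, fun k => ⟨k, h.ex x k⟩⟩
  have d3 : ∀ t ∈ ⊤ ⊓ normalizer (P : Set G), cz P t = p ^ (a * d t) := fun t ht =>
    top ▸ d2 t ht a le_rfl
  refine ⟨C (Nat.card (⊤ ⊓ normalizer P : Subgroup G) : ℚ)⁻¹ *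
    ∑ t, C (ind (t ∈ ⊤ ⊓ normalizer (P : Set G))) * X ^ d t, (natDegree_C_mul_le _ _).trans
      (natDegree_sum_le_of_forall_le _ _ fun t _ =>
        (natDegree_C_mul_X_pow_le _ _).trans (d1 t)), ?_, fun k hk => ⟨?_, ?_⟩⟩
  · rw [coeff_C_mul, finsetSum_coeff, mul_assoc, inv_mul_eq_iff_eq_mul₀ hN, mul_one,
      ← sum_full ⊤ P]
    congr 1
    refine sum_congr rfl fun t _ => ?_
    rw [coeff_C_mul, coeff_X_pow]
    refine ind_congr fun ht => ?_
    rw [d3 t ht, h.card]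
    by_cases e : n = d t
    · rw [if_pos e, ind_pos (by rw [← e])]
    · rw [if_neg e, ind_neg fun k => e (Nat.eq_of_mul_eq_mul_left (Nat.pos_of_ne_zero a0)
        (Nat.pow_right_injective hp.out.two_le k)).symm]
  · rw [eval_mul, eval_C, eval_finsetSum, mul_assoc, inv_mul_eq_iff_eq_mul₀ hN, mul_comm _ (∑ _, _),
      (sums hP h.comm k).1]
    congr 1
    refine sum_congr rfl fun t _ => ?_
    rw [eval_mul, eval_C, eval_pow, eval_X]
    refine ind_congr fun ht => ?_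
    rw [d2 t ht k hk, ← pow_mul, Nat.cast_pow]
  · rw [eval_mul, eval_C, eval_finsetSum, mul_assoc, inv_mul_eq_iff_eq_mul₀ hN, mul_comm _ (∑ _, _),
      (sums hP h.comm k).2]
    congr 1
    refine sum_congr rfl fun t _ => ?_
    rw [eval_mul, eval_C, eval_pow, eval_X]
    refine ind_congr fun ht => ?_
    rw [d2 t ht k hk, d3 t ht, div_pow, ← pow_mul, ← pow_mul, Nat.cast_pow, Nat.cast_pow,
      div_eq_mul_inv]

theorem kill (h : Mt F) (hP : Sy p P) (hQ : Sy p Q) (c : ∀ x ∈ P, P ≤ centralizer {x}) {k : ℕ}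
    {g : G} (hg : g ^ p ^ k = 1) : F g ^ p ^ k = 1 := by
  obtain ⟨x, hx, e⟩ := (⟨le_top, hP.pg, hP.rel le_top, c⟩ : AS p ⊤ P).into (mem_top g) ⟨k, hg⟩
  obtain ⟨u, -, h1, -, h2⟩ := h.cp hP hQ hx (c x hx)
  rw [kill_cj (((h.conj _ _).2 (cj_top.1 e)).trans h1), ← orderOf_dvd_iff_pow_eq_one, h2,
    orderOf_dvd_iff_pow_eq_one, ← kill_cj (cj_top.1 e)]
  exact hg

theorem cI_eq (h : Mt F) (hP : Sy p P) (hQ : Sy p Q) (h1 : Ho p a n P) (h2 : Ho p a n Q)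
    (a0 : a ≠ 0) (le : n ≤ 2 * a) : cI ⊤ P = cI ⊤ Q := by
  obtain ⟨φ, f1, f2, f3⟩ := h1.pol hP a0
  obtain ⟨ψ, g1, g2, g3⟩ := h2.pol hQ a0
  have iff : ∀ k g, g ^ p ^ k = 1 ↔ F g ^ p ^ k = 1 := fun k g =>
    ⟨kill h hP hQ h1.comm, fun e => by simpa using kill h.symm hQ hP h2.comm e⟩
  have hG : (Nat.card G : ℚ) ≠ 0 := Nat.cast_ne_zero.2 Nat.card_pos.ne'
  have p1 : (1 : ℚ) < p := by exact_mod_cast hp.out.one_lt
  have e : φ = ψ := eq_of_natDegree_lt_card_of_eval_eq φ ψ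
    (f := fun j : Fin (2 * a + 1) => (p : ℚ) ^ j.1 / p ^ a) (fun i j e => Fin.ext
      (pow_right_injective₀ (by positivity) p1.ne' ((div_left_inj' (by positivity)).1 e)))
    (fun j => mul_right_cancel₀ hG (by
      rcases le_total j.1 a with k | k
      · rw [(f3 _ k).2, ← Mt.card F, (g3 _ k).2]
        refine Fintype.sum_equiv F _ _ fun g => ?_
        rw [← iff]
        exact ind_congr fun hg => by rw [h.rg_cen hp.out ⟨_, hg⟩ (IsConj.refl _)]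
      · have k' : j.1 - a ≤ a := by omega
        rw [div_eq_mul_inv, ← pow_sub₀ _ (by positivity) k, (f3 _ k').1, ← Mt.card F, (g3 _ k').1]
        exact Fintype.sum_equiv F _ _ fun g => by rw [← iff, h.cz]))
    (by rw [Fintype.card_fin]; omega)
  subst e
  exact Nat.cast_injective (R := ℚ) (mul_left_cancel₀ (left_ne_zero_of_mul_eq_one f2)
    (f2.trans g2.symm))

theorem primes {q : ℕ} (h : Mt F) (hP : Sy p P) (hQ : Sy p Q) (hq : q.Prime)
    (c' : ∀ x ∈ Q, Q ≤ centralizer {x}) (e : cI ⊤ P = cI ⊤ Q) (d : q ∣ nI P) : q ∣ nI Q := by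
  refine h.red hP hQ hq d fun qp y hy yq ny => ?_
  have as' : AS p ⊤ Q := ⟨le_top, hQ.pg, hQ.rel le_top, c'⟩
  refine Dvd.dvd.trans ?_ (as'.cI_dvd.trans (rel_dvd (le_inf le_top le_normalizer) inf_le_right))
  rw [← e]
  by_contra k
  exact ny (cen_zp (fun x hx => mem_centralizer_singleton_iff.2
    (pow_cI (X := ⊤) ⟨mem_top y, hy⟩ x hx)) (mem_zp_pow hq yq k))

end Pool.Agent.MP_abb977_al.CQP
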