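import Pool.Agent.MP_abb977_al.CQ.Gen
import Pool.Agent.MP_abb977_al.H94.Dd

/-! A faithful coprime action of a cyclic group on the centre has a regular point. -/

namespace Pool.Agent.MP_abb977_al.CQ

open Pool.Agent.MP_abb977_al.H94 Subgroup

variable {G : Type} [Group G] {p : ℕ} {P : Subgroup G} [Fintype G] [hp : Fact p.Prime]

theorem regular (hP : Sy p P) {t : G} (ht : t ∈ normalizer (P : Set G))
    (top : normalizer (P : Set G) ≤ zpowers t ⊔ (P ⊔ centralizer (P : Set G)))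
    (ff : ∀ n ∈ normalizer (P : Set G), (∀ z ∈ P, P ≤ centralizer {z} → n * z = z * n) →
      n ∈ P ⊔ centralizer (P : Set G)) :
    ∃ z ∈ P, P ≤ centralizer {z} ∧ ∀ n ∈ normalizer (P : Set G), n * z * n⁻¹ = z →
      n ∈ P ⊔ centralizer (P : Set G) := by
  have tn : t ∈ normalizer ((P ⊔ centralizer (P : Set G) : Subgroup G) : Set G) :=
    mem_norm fun x hx => (sup_le (fun a ha => mem_comap.2 (mem_sup_left (norm_mem ht ha)))
      (fun a ha => mem_comap.2 (mem_sup_right (cc.2 (cen_cj ht (cc.1 ha))))) :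
      _ ≤ (P ⊔ centralizer (P : Set G)).comap (MulAut.conj t).toMonoidHom) hx
  have act : ∀ n ∈ normalizer (P : Set G), ∃ k : ℤ, ∀ v ∈ P, P ≤ centralizer {v} →
      n * v * n⁻¹ = t ^ k * v * (t ^ k)⁻¹ := fun n hn => by
    have h1 : n ∈ ((zpowers t ⊔ (P ⊔ centralizer (P : Set G)) : Subgroup G) : Set G) := top hn
    rw [coe_mul_of_left_le_normalizer_right _ _ (zpowers_le.2 tn)] at h1
    obtain ⟨_, ⟨k, rfl⟩, c, hc, rfl⟩ := h1
    refine ⟨k, fun v hv cv => ?_⟩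
    have := mem_cen.1 (sup_le cv (centralizer_le (Set.singleton_subset_iff.2 hv)) hc)
    calc _ = t ^ k * (c * v * c⁻¹) * (t ^ k)⁻¹ := by simp only; group
      _ = _ := by rw [this]
  have comm : ∀ s ∈ normalizer (P : Set G), ∀ n ∈ normalizer (P : Set G), ∀ v ∈ P,
      P ≤ centralizer {v} → s * (n * v * n⁻¹) * s⁻¹ = n * (s * v * s⁻¹) * n⁻¹ := by
    intro s hs n hn v hv cv
    obtain ⟨k, hk⟩ := act s hs
    obtain ⟨l, hl⟩ := act n hn
    rw [hk _ (norm_mem hn hv) (cen_cj hn cv), hl _ (norm_mem hs hv) (cen_cj hs cv), hk v hv cv,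
      hl v hv cv]
    group
  obtain ⟨z, ⟨hz, cz'⟩, hm⟩ := Set.exists_min_image {z | z ∈ P ∧ P ≤ centralizer {z}}
    (cz (normalizer (P : Set G))) (Set.toFinite _) ⟨1, one_mem _, fun _ _ => mem_cen.2 (by simp)⟩
  refine ⟨z, hz, cz', fun n hn nz => ff n hn fun v hv cv => ?_⟩
  have tr : ∀ {v d : G}, P ≤ centralizer {v} → d ∈ P → n * v * n⁻¹ = v * d → n * d * n⁻¹ = d →
      d = 1 := fun cv hd => ctriv hP.nI (pe_of_mem hP.pg hd) (mem_cen.1 (cv (pow_nI hn)))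
  obtain ⟨d, hd⟩ : ∃ d, n * v * n⁻¹ = v * d := ⟨v⁻¹ * (n * v * n⁻¹), by group⟩
  have e : d = v⁻¹ * (n * v * n⁻¹) := by rw [hd]; group
  have dP : d ∈ P := e ▸ mul_mem (inv_mem hv) (norm_mem hn hv)
  have dc : d ∈ centralizer (P : Set G) :=
    e ▸ mul_mem (inv_mem (cc.2 cv)) (cc.2 (cen_cj hn cv))
  have le : normalizer (P : Set G) ⊓ centralizer {z * d} ≤
      normalizer (P : Set G) ⊓ centralizer {z} := fun s ⟨hs, h1⟩ => by
    refine ⟨hs, mem_cen.2 ?_⟩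
    have h2 : s * z * s⁻¹ = z * (d * (s * d * s⁻¹)⁻¹) := by
      rw [← mul_assoc z, ← mem_cen.1 h1]
      group
    have aP : d * (s * d * s⁻¹)⁻¹ ∈ P := mul_mem dP (inv_mem (norm_mem hs dP))
    have h3 := tr (v := v * (s * v * s⁻¹)⁻¹)
      (cc.1 (mul_mem (cc.2 cv) (inv_mem (cc.2 (cen_cj hs cv))))) aP (by
        have c : Commute (d * (s * d * s⁻¹)⁻¹) (s * v * s⁻¹) :=
          mem_centralizer_singleton_iff.1 (cen_cj hs cv aP)
        calc _ = n * v * n⁻¹ * (n * (s * v * s⁻¹) * n⁻¹)⁻¹ := by group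
          _ = v * (d * (s * d * s⁻¹)⁻¹ * (s * v * s⁻¹)⁻¹) := by
            rw [← comm s hs n hn v hv cv, hd]; group
          _ = _ := by rw [c.inv_right.eq]; group) (by
        rw [← inv_mul_eq_iff_eq_mul.2 h2]
        calc _ = (n * z * n⁻¹)⁻¹ * (n * (s * z * s⁻¹) * n⁻¹) := by group
          _ = _ := by rw [← comm s hs n hn z hz cz', nz])
    rw [h2, h3, mul_one]
  have h4 := eq_of_le_of_card_ge le
    (hm (z * d) ⟨mul_mem hz dP, cc.1 (mul_mem (cc.2 cz') dc)⟩)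
  have h5 : n ∈ normalizer (P : Set G) ⊓ centralizer {z * d} := h4 ▸ ⟨hn, mem_cen.2 nz⟩
  have h6 := tr cv dP hd (mul_left_cancel (a := z) (by
    calc _ = n * z * n⁻¹ * (n * d * n⁻¹) := by rw [nz]
      _ = n * (z * d) * n⁻¹ := by group
      _ = _ := mem_cen.1 h5.2))
  rw [h6, mul_one] at hd
  exact mul_inv_eq_iff_eq_mul.1 hd

end Pool.Agent.MP_abb977_al.CQ
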